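import Mathlib
import Pool.Prelude.Def_F_8adaa765
import Pool.Agent.GSU.RW
import Pool.Agent.GSU.CSQ
import Pool.Agent.GSU.MO1
import Pool.Agent.GSU.MO2
import Pool.Agent.GSU.VAR
import Pool.Agent.GSU.FIN
import Pool.Agent.GSU.MAI
import Pool.Agent.GSU.BLK
import Pool.Agent.GSU.KPN
import Pool.Agent.GSU.PAR
import Pool.Agent.GSU.MNL
import Pool.Agent.GSU.AVG
import Pool.Agent.GSU.SND
import Pool.Agent.GSU.FCA
import Pool.Agent.GSU.CNT
import Pool.Agent.GSU.CLS
import Pool.Agent.GSU.ARS
import Pool.Agent.GSU.CAB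
import Pool.Agent.GSU.SG3
import Pool.Agent.GSU.MER
import Pool.Agent.GSU.SQZ
import Pool.Agent.GSU.MIN
import Pool.Agent.GSU.SER
import Pool.Agent.GSU.HAR
import Pool.Agent.GSU.DEC
import Pool.Agent.GSU.SMA
import Pool.Agent.GSO.Osc

/-!
# The greedy reciprocal sum: oscillation around its mean, and its mean square in residue classes

`totalSum false n` is the sum `S(n)` of the problem, `selected false n` is the set of the terms of
the greedy sequence of `n` (frozen prelude `Pool.Prelude.Def_F_8adaa765`), `primorial y` is the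
product of the primes `p ≤ y`.

(1) For every `δ > 0` there is `B` such that for all large `N` and every real `θ` with
`-e^(-γ) ≤ θ ≤ 1 - e^(-γ)` at least `N^(1 - δ)` of the integers `√N < n ≤ N` satisfy
`|S(n) - e^(-γ) log log n - θ log log log n| ≤ B`.

(2) `S(n) = e^(-γ) log log N + O(1)` in mean square over the `n ≤ N`.

(3) The source of both: for every residue class modulo `primorial y` and every `N ≥ exp (C y)`, the
sum `S(n)`, minus the part of the sum with terms at most `y` (which depends only on the class),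
differs from `e^(-γ) log (log N / log y)` by a bounded amount in mean square over the `n ≤ N` in the
class.  For (1) the classes of `1` (the terms at most `y` are `1` and `2`) and of `0` (they are `1`
and the primes up to `y`) are used, with `log log y = t log log log N + O(1)`, `0 ≤ t ≤ 1`.
-/

set_option autoImplicit false

namespace Pool.Agent.Results.MP_8775f9_nt.Oscillation

open Finset N435e839e Pool.Agent.GSU Pool.Agent.GSO

theorem classVariance : FIN_Stmt := by
  have hcls : CLS_Stmt := CLS ARS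
  have hcsq : CSQ_Stmt := CSQ hcls CAB
  have hmo1 : MO1_Stmt := MO1 FCA CNT hcls CAB
  have hmo2 : MO2_Stmt := MO2 FCA CNT hcsq CAB SG3
  have hvar : VAR_Stmt := VAR hmo1 hmo2
  have hmnl : MNL_Stmt := MNL AVG
  have hrw : RW_Stmt := RW AVG
  have hkpn : KPN_Stmt := KPN PAR hrw hmnl SND hvar
  have hblk : BLK_Stmt := BLK hkpn MER SQZ
  have hmai : MAI_Stmt := MAI hblk MIN SER HAR DEC
  exact FIN hmai SMA

theorem result :
    (∀ δ : ℝ, 0 < δ → ∃ (B : ℝ) (N₀ : ℕ), ∀ N : ℕ, N₀ ≤ N → ∀ θ : ℝ,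
      -Real.exp (-Real.eulerMascheroniConstant) ≤ θ →
      θ ≤ 1 - Real.exp (-Real.eulerMascheroniConstant) →
      (N : ℝ) ^ (1 - δ) ≤ ((((Ioc (Nat.sqrt N) N).filter (fun n =>
        |totalSum false n - Real.exp (-Real.eulerMascheroniConstant) * Real.log (Real.log n) -
          θ * Real.log (Real.log (Real.log n))| ≤ B)).card : ℕ) : ℝ)) ∧
    (∃ C : ℝ, 0 < C ∧ ∀ N : ℕ, 3 ≤ N →
      ∑ n ∈ Icc 1 N, (totalSum false n -
        Real.exp (-Real.eulerMascheroniConstant) * Real.log (Real.log N)) ^ 2 ≤ C * N) ∧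
    (∃ C : ℝ, 0 < C ∧ ∀ (y N r : ℕ), 2 ≤ y → Real.exp (C * y) ≤ N →
      ∑ n ∈ (Icc 1 N).filter (fun n => n ≡ r [MOD primorial y]),
        (totalSum false n - (∑ a ∈ (selected false n).filter (fun a => a ≤ y), (1 : ℝ) / a) -
          Real.exp (-Real.eulerMascheroniConstant) * Real.log (Real.log N / Real.log y)) ^ 2 ≤
        C * ((N : ℝ) / primorial y)) := by
  obtain ⟨C₀, hC₀, h₀⟩ := classVariance
  have hCV : CV (max C₀ 8) := by
    intro y N r hy hN
    have hyR : (0 : ℝ) ≤ y := Nat.cast_nonneg y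
    have h1 : Real.exp (C₀ * y) ≤ N :=
      (Real.exp_le_exp.2 (mul_le_mul_of_nonneg_right (le_max_left _ _) hyR)).trans hN
    refine (h₀ y N r hy h1).trans (mul_le_mul_of_nonneg_right (le_max_left _ _) (by positivity))
  refine ⟨fun δ hδ => ?_, ?_, ⟨C₀, hC₀, h₀⟩⟩
  · obtain ⟨B, hB⟩ := osc (max C₀ 8) (le_max_right _ _) hCV δ hδ
    obtain ⟨N₀, hN₀⟩ := Filter.eventually_atTop.1 hB
    exact ⟨B, N₀, fun N hN θ h1 h2 => hN₀ N hN θ h1 h2⟩
  · exact msq (max C₀ 8) (le_max_right _ _) hCV

end Pool.Agent.Results.MP_8775f9_nt.Oscillation
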