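import Mathlib
import Pool.Prelude.Def_F_8adaa765
import Pool.Agent.Lib_helper10.Erdos460.RareLarge

set_option autoImplicit false
open N435e839e

namespace Pool.Agent.Results.MP_8775f9_nt.PowerSavingNormalOrder

open Finset Filter Topology Pool.Agent.Lib_helper10.Erdos460

/-- The bound for all large `N`. -/
theorem count_bound (δ : ℝ) (hδ : 0 < δ) (A : ℕ) (hA : 1 ≤ A) :
    ∃ c C : ℝ, 0 < c ∧ c ≤ 1 / 2 ∧ 0 < C ∧
    ∀ᶠ N : ℕ in atTop, ∀ M : ℕ, M ≤ N ^ A →
    ((((Ioc M (M + N)).filter
      (fun n => δ < |totalSum false n / Real.log (Real.log n) - kap|)).card : ℕ) : ℝ) ≤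
      C * (N : ℝ) ^ (1 - c) := by
  classical
  have hkap := kap_pos
  have hkap1 := kap_le_one
  set σ : ℝ := min (δ / 2) 1 with hσ
  have hσ0 : 0 < σ := lt_min (by positivity) (by norm_num)
  have hσ1 : σ ≤ δ / 2 := min_le_left _ _
  obtain ⟨c1, C1, hc1, hC1, h1⟩ := rare_small σ hσ0
  obtain ⟨c2, C2, hc2, _, hC2, h2⟩ := rare_large_large σ hσ0 (min_le_right _ _) A hA
  set c : ℝ := min (min c1 c2) (1 / 2) with hc
  have hc0 : 0 < c := lt_min (lt_min hc1 hc2) (by norm_num)
  have hcc1 : c ≤ c1 := (min_le_left _ _).trans (min_le_left _ _)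
  have hcc2 : c ≤ c2 := (min_le_left _ _).trans (min_le_right _ _)
  have hch : c ≤ 1 / 2 := min_le_right _ _
  set L : ℝ := Real.log ((A : ℝ) + 1) with hL
  have hL0 : 0 ≤ L := Real.log_nonneg (by linarith [(Nat.cast_nonneg A : (0 : ℝ) ≤ A)])
  refine ⟨c, 1 + C1 + C2, hc0, hch, by positivity, ?_⟩
  have hev : ∀ᶠ u : ℝ in atTop, ((1 + δ) / (δ - σ) ≤ Real.log u ∧ L / (δ - σ) ≤ Real.log u) ∧
      2 ≤ Real.log u :=
    ((Real.tendsto_log_atTop.eventually_ge_atTop _).and
      (Real.tendsto_log_atTop.eventually_ge_atTop _)).and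
      (Real.tendsto_log_atTop.eventually_ge_atTop _)
  have hlogN : Tendsto (fun N : ℕ => Real.log (N : ℝ)) atTop atTop :=
    Real.tendsto_log_atTop.comp tendsto_natCast_atTop_atTop
  filter_upwards [hlogN.eventually hev, h2, eventually_ge_atTop 3] with N hN hlarge hN3
  obtain ⟨⟨g1, g2⟩, g3⟩ := hN
  intro M hM
  have hds : 0 < δ - σ := by linarith
  rw [div_le_iff₀ hds] at g1 g2
  have hNR : (3 : ℝ) ≤ N := by exact_mod_cast hN3
  have hN1 : (1 : ℝ) ≤ N := by linarith
  have hNpos : (0 : ℝ) < N := by linarith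
  set u := Real.log (N : ℝ) with hu
  set T := Real.log u with hT
  have hT0 : 0 < T := by linarith
  have hu0 : 0 < u := by rw [hu]; exact Real.log_pos (by linarith)
  have hsmall := h1 M N (by omega)
  have hlargeM := hlarge M hM
  set B0 := (Ioc M (M + N)).filter (fun n => n * n < N) with hB0def
  set B1 := (Ioc M (M + N)).filter (fun n => totalSum false n < (kap - σ) * T) with hB1def
  set B2 := (Ioc M (M + N)).filter (fun n => (kap + σ) * T < totalSum false n) with hB2def
  have hpow : ∀ c' : ℝ, c ≤ c' → (N : ℝ) ^ (1 - c') ≤ (N : ℝ) ^ (1 - c) := fun c' h =>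
    Real.rpow_le_rpow_of_exponent_le hN1 (by linarith)
  have hP0 : 0 ≤ (N : ℝ) ^ (1 - c) := Real.rpow_nonneg (by linarith) _
  have hB0 : (B0.card : ℝ) ≤ (N : ℝ) ^ (1 - c) := by
    have e1 : B0 ⊆ Ioc 0 (Nat.sqrt N) := by
      intro n hn
      rw [mem_filter, mem_Ioc] at hn
      rw [mem_Ioc]
      exact ⟨by omega, Nat.le_sqrt.2 hn.2.le⟩
    have e2 : (B0.card : ℝ) ≤ (Nat.sqrt N : ℝ) := by
      have := card_le_card e1
      rw [Nat.card_Ioc] at this
      exact_mod_cast this
    have e3 : (Nat.sqrt N : ℝ) ^ 2 ≤ N := by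
      have := Nat.sqrt_le' N
      exact_mod_cast this
    have e4 : (Nat.sqrt N : ℝ) ≤ (N : ℝ) ^ (1 / 2 : ℝ) := by
      rw [← Real.sqrt_eq_rpow]
      exact Real.le_sqrt_of_sq_le e3
    refine e2.trans (e4.trans ?_)
    exact Real.rpow_le_rpow_of_exponent_le hN1 (by linarith)
  have hB1 : (B1.card : ℝ) ≤ C1 * (N : ℝ) ^ (1 - c) :=
    hsmall.trans (mul_le_mul_of_nonneg_left (hpow c1 hcc1) hC1.le)
  have hB2 : (B2.card : ℝ) ≤ C2 * (N : ℝ) ^ (1 - c) :=
    hlargeM.trans (mul_le_mul_of_nonneg_left (hpow c2 hcc2) hC2.le)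
  -- cover
  have hsub : (Ioc M (M + N)).filter
      (fun n => δ < |totalSum false n / Real.log (Real.log n) - kap|) ⊆ (B0 ∪ B1) ∪ B2 := by
    intro n hn
    rw [mem_filter, mem_Ioc] at hn
    obtain ⟨⟨hnM, hnN⟩, hbad⟩ := hn
    by_contra hcon
    rw [mem_union, mem_union, not_or, not_or] at hcon
    obtain ⟨⟨c0, c1⟩, c2⟩ := hcon
    have hnI : n ∈ Ioc M (M + N) := mem_Ioc.2 ⟨hnM, hnN⟩
    have d0 : N ≤ n * n := by
      by_contra h
      exact c0 (mem_filter.2 ⟨hnI, by omega⟩)
    have d1 : (kap - σ) * T ≤ totalSum false n := by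
      by_contra h
      exact c1 (mem_filter.2 ⟨hnI, not_le.1 h⟩)
    have d2 : totalSum false n ≤ (kap + σ) * T := by
      by_contra h
      exact c2 (mem_filter.2 ⟨hnI, not_le.1 h⟩)
    have hnR : (0 : ℝ) < n := by exact_mod_cast (by omega : 0 < n)
    have hnle : n ≤ N ^ (A + 1) := by
      have f1 : N ≤ N ^ A := by
        calc N = N ^ 1 := (pow_one N).symm
          _ ≤ N ^ A := Nat.pow_le_pow_right (by omega) hA
      have f2 : N ^ (A + 1) = N ^ A * N := pow_succ N A
      have f3 : N ^ A * 2 ≤ N ^ A * N := Nat.mul_le_mul_left _ (by omega)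
      omega
    have hlogn : Real.log n ≤ ((A : ℝ) + 1) * u := by
      have h1 : (n : ℝ) ≤ (N : ℝ) ^ (A + 1) := by exact_mod_cast hnle
      have h2 := Real.log_le_log hnR h1
      rw [Real.log_pow] at h2
      push_cast at h2
      exact h2
    have hlogn2 : u ≤ 2 * Real.log n := by
      have h1 : (N : ℝ) ≤ (n : ℝ) * n := by exact_mod_cast d0
      have h2 := Real.log_le_log hNpos h1
      rw [Real.log_mul hnR.ne' hnR.ne'] at h2
      linarith
    have hlogn0 : 0 < Real.log n := by linarith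
    have hll1 : Real.log (Real.log n) ≤ T + L := by
      have h1 := Real.log_le_log hlogn0 hlogn
      rw [Real.log_mul (by positivity) hu0.ne'] at h1
      linarith
    have hll2 : T - Real.log 2 ≤ Real.log (Real.log n) := by
      have h1 := Real.log_le_log hu0 hlogn2
      rw [Real.log_mul (by norm_num) hlogn0.ne'] at h1
      linarith
    have hlog2 : Real.log 2 ≤ 1 := by
      have := Real.log_two_lt_d9
      linarith
    set t := Real.log (Real.log n) with ht
    have ht0 : 0 < t := by linarith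
    have hup : totalSum false n / t - kap ≤ δ := by
      rw [sub_le_iff_le_add, div_le_iff₀ ht0]
      refine d2.trans ?_
      have h2 : T - 1 ≤ t := by linarith
      have h3 : (δ + kap) * (T - 1) ≤ (δ + kap) * t :=
        mul_le_mul_of_nonneg_left h2 (by positivity)
      nlinarith
    have hlo : -δ ≤ totalSum false n / t - kap := by
      have h1 : (kap - δ) ≤ totalSum false n / t := by
        rw [le_div_iff₀ ht0]
        rcases le_or_gt (kap - δ) 0 with h5 | h5
        · exact (mul_nonpos_of_nonpos_of_nonneg h5 ht0.le).trans (totalSum_nonneg n)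
        · refine le_trans ?_ d1
          calc (kap - δ) * t ≤ (kap - δ) * (T + L) :=
                mul_le_mul_of_nonneg_left hll1 h5.le
            _ ≤ (kap - σ) * T := by
                have h6 : (kap - δ) * L ≤ 1 * L :=
                  mul_le_mul_of_nonneg_right (by linarith) hL0
                nlinarith
      linarith
    have : |totalSum false n / t - kap| ≤ δ := abs_le.2 ⟨hlo, hup⟩
    linarith
  have hcard : ((((Ioc M (M + N)).filter
      (fun n => δ < |totalSum false n / Real.log (Real.log n) - kap|)).card : ℕ) : ℝ) ≤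
      (B0.card + B1.card) + B2.card := by
    have h1 := (card_le_card hsub).trans ((card_union_le _ _).trans
      (add_le_add_left (card_union_le _ _) _))
    exact_mod_cast h1
  refine hcard.trans ?_
  nlinarith

/-- For every `δ > 0` and every exponent `A` there are `c, C > 0` such that for all `N ≥ 1` and
all `M ≤ N^A` the interval `(M, M + N]` contains at most `C N^(1 - c)` integers `n` with
`|S(n) / log log n - e^{-γ}| > δ`. -/
theorem result (δ : ℝ) (hδ : 0 < δ) (A : ℕ) : ∃ c C : ℝ, 0 < c ∧ 0 < C ∧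
    ∀ M N : ℕ, 1 ≤ N → M ≤ N ^ A →
    ({n : ℕ | M < n ∧ n ≤ M + N ∧ δ < |totalSum false n / Real.log (Real.log n) -
        Real.exp (-Real.eulerMascheroniConstant)|}.ncard : ℝ) ≤ C * (N : ℝ) ^ (1 - c) := by
  classical
  have hset : ∀ M N : ℕ, {n : ℕ | M < n ∧ n ≤ M + N ∧
      δ < |totalSum false n / Real.log (Real.log n) -
        Real.exp (-Real.eulerMascheroniConstant)|} =
      (((Ioc M (M + N)).filter (fun n => δ < |totalSum false n / Real.log (Real.log n) - kap|)
        : Finset ℕ) : Set ℕ) := by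
    intro M N
    ext n
    rw [Set.mem_ofPred_eq, Finset.mem_coe, Finset.mem_filter, Finset.mem_Ioc]
    unfold kap
    constructor
    · rintro ⟨h1, h2, h3⟩
      exact ⟨⟨h1, h2⟩, h3⟩
    · rintro ⟨⟨h1, h2⟩, h3⟩
      exact ⟨h1, h2, h3⟩
  obtain ⟨c, C, hc0, hc1, hC0, hev⟩ := count_bound δ hδ (max A 1) (le_max_right _ _)
  obtain ⟨N0, hN0⟩ := eventually_atTop.1 hev
  set N1 : ℕ := max N0 3 with hN1
  have hN1R : (3 : ℝ) ≤ N1 := by exact_mod_cast le_max_right N0 3
  refine ⟨c, max C ((N1 : ℝ) ^ c), hc0, lt_max_of_lt_left hC0, fun M N hN hM => ?_⟩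
  have hNR : (1 : ℝ) ≤ N := by exact_mod_cast hN
  have hP0 : 0 ≤ (N : ℝ) ^ (1 - c) := Real.rpow_nonneg (by linarith) _
  rw [hset M N, Set.ncard_coe_finset]
  rcases Nat.lt_or_ge N N1 with h | h
  · have h1 : ((((Ioc M (M + N)).filter (fun n => δ <
        |totalSum false n / Real.log (Real.log n) - kap|)).card : ℕ) : ℝ) ≤ N := by
      have : ((Ioc M (M + N)).filter (fun n => δ <
        |totalSum false n / Real.log (Real.log n) - kap|)).card ≤ N :=
        (card_filter_le _ _).trans (by simp)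
      exact_mod_cast this
    refine h1.trans ?_
    have h2 : (N : ℝ) = (N : ℝ) ^ c * (N : ℝ) ^ (1 - c) := by
      rw [← Real.rpow_add (by linarith)]
      simp
    calc (N : ℝ) = (N : ℝ) ^ c * (N : ℝ) ^ (1 - c) := h2
      _ ≤ (N1 : ℝ) ^ c * (N : ℝ) ^ (1 - c) := by
          refine mul_le_mul_of_nonneg_right ?_ hP0
          exact Real.rpow_le_rpow (by linarith) (by exact_mod_cast h.le) hc0.le
      _ ≤ max C ((N1 : ℝ) ^ c) * (N : ℝ) ^ (1 - c) :=
          mul_le_mul_of_nonneg_right (le_max_right _ _) hP0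
  · have hM' : M ≤ N ^ max A 1 :=
      hM.trans (Nat.pow_le_pow_right (by omega) (le_max_left _ _))
    have h1 := hN0 N ((le_max_left _ _).trans h) M hM'
    exact h1.trans (mul_le_mul_of_nonneg_right (le_max_left _ _) hP0)

end Pool.Agent.Results.MP_8775f9_nt.PowerSavingNormalOrder
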