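import Mathlib
import Pool.Prelude.Def_F_8adaa765
import Pool.Agent.Lib_helper10.Erdos460.RareSmall

set_option autoImplicit false
open N435e839e

namespace Pool.Agent.Results.MP_8775f9_nt.PowerSavingShortIntervals

/-- For every `δ > 0` there are `c, C > 0` such that every interval `(M, M + N]` of integers
contains at most `C N^(1 - c)` integers `n` with `S(n) < (e^{-γ} - δ) log log N`. -/
theorem result (δ : ℝ) (hδ : 0 < δ) : ∃ c C : ℝ, 0 < c ∧ 0 < C ∧
    ∀ M N : ℕ, 1 ≤ N →
    ({n : ℕ | M < n ∧ n ≤ M + N ∧ totalSum false n <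
        (Real.exp (-Real.eulerMascheroniConstant) - δ) * Real.log (Real.log N)}.ncard : ℝ) ≤
      C * (N : ℝ) ^ (1 - c) := by
  classical
  obtain ⟨c, C, hc, hC, h⟩ := Pool.Agent.Lib_helper10.Erdos460.rare_small δ hδ
  refine ⟨c, C, hc, hC, fun M N hN => ?_⟩
  have hset : {n : ℕ | M < n ∧ n ≤ M + N ∧ totalSum false n <
        (Real.exp (-Real.eulerMascheroniConstant) - δ) * Real.log (Real.log N)} =
      (((Finset.Ioc M (M + N)).filter (fun n => totalSum false n <
        (Pool.Agent.Lib_helper10.Erdos460.kap - δ) * Real.log (Real.log N)) : Finset ℕ)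
        : Set ℕ) := by
    ext n
    rw [Set.mem_ofPred_eq, Finset.mem_coe, Finset.mem_filter, Finset.mem_Ioc]
    unfold Pool.Agent.Lib_helper10.Erdos460.kap
    constructor
    · rintro ⟨h1, h2, h3⟩
      exact ⟨⟨h1, h2⟩, h3⟩
    · rintro ⟨⟨h1, h2⟩, h3⟩
      exact ⟨h1, h2, h3⟩
  rw [hset, Set.ncard_coe_finset]
  exact h M N hN

end Pool.Agent.Results.MP_8775f9_nt.PowerSavingShortIntervals
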