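import Mathlib
import Pool.Prelude.Def_F_8adaa765
import Pool.Agent.Lib_helper10.Erdos460.Upper

set_option autoImplicit false
open N435e839e

namespace Pool.Agent.Results.MP_8775f9_nt.UpperBound

open Finset Pool.Agent.Lib_helper10.Erdos460

/-- For every `n ≥ 3` the reciprocal sum `S(n)` of the greedy sequence is at most a constant
times `log log n`. -/
theorem result : ∃ C : ℝ, 0 < C ∧ ∀ n : ℕ, 3 ≤ n →
    totalSum false n ≤ C * Real.log (Real.log n) := by
  classical
  obtain ⟨C, hC, h⟩ := tail_bound
  have hl2 : 0 < Real.log 2 := Real.log_pos (by norm_num)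
  have hl3 : 1 < Real.log 3 := by
    rw [Real.lt_log_iff_exp_lt (by norm_num)]
    have := Real.exp_one_lt_d9
    linarith
  have hll3 : 0 < Real.log (Real.log 3) := Real.log_pos hl3
  set K : ℝ := 2 + C * (1 / Real.log 2 + |Real.log (Real.log 2)|) with hK
  have hK0 : 0 < K := by
    have : 0 ≤ |Real.log (Real.log 2)| := abs_nonneg _
    positivity
  refine ⟨K / Real.log (Real.log 3) + C, by positivity, fun n hn => ?_⟩
  have hnR : (3 : ℝ) ≤ n := by exact_mod_cast hn
  have hlln : Real.log (Real.log 3) ≤ Real.log (Real.log n) :=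
    Real.log_le_log (by linarith) (Real.log_le_log (by norm_num) hnR)
  have hsplit : totalSum false n =
      ∑ a ∈ (selected false n).filter (fun a => a ≤ 2), (1 : ℝ) / a +
      ∑ a ∈ (selected false n).filter (fun a => ¬ a ≤ 2), (1 : ℝ) / a := by
    unfold totalSum
    rw [sum_filter_add_sum_filter_not]
  have h1 : ∑ a ∈ (selected false n).filter (fun a => a ≤ 2), (1 : ℝ) / a ≤ 2 := by
    have hsub : (selected false n).filter (fun a => a ≤ 2) ⊆ Icc 1 2 := by
      intro a ha
      rw [mem_filter] at ha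
      rw [mem_Icc]
      exact ⟨sel_pos ha.1, ha.2⟩
    calc ∑ a ∈ (selected false n).filter (fun a => a ≤ 2), (1 : ℝ) / a
        ≤ ∑ a ∈ Icc (1 : ℕ) 2, (1 : ℝ) / (a : ℝ) :=
          sum_le_sum_of_subset_of_nonneg hsub fun a _ _ => by positivity
      _ ≤ 2 := by
          rw [show Icc (1 : ℕ) 2 = ({1, 2} : Finset ℕ) by rfl]
          norm_num
  have h2 : ∑ a ∈ (selected false n).filter (fun a => ¬ a ≤ 2), (1 : ℝ) / a =
      ∑ a ∈ (Ioc 2 n).filter (fun a => a ∈ selected false n), (1 : ℝ) / a := by
    refine sum_congr ?_ fun _ _ => rfl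
    ext a
    simp only [mem_filter, mem_Ioc]
    constructor
    · rintro ⟨h1, h2⟩
      have := sel_lt h1
      exact ⟨⟨by omega, by omega⟩, h1⟩
    · rintro ⟨⟨h1, _⟩, h3⟩
      exact ⟨h3, by omega⟩
  have h3 := h n 2 n le_rfl (by omega) le_rfl
  have h4 : totalSum false n ≤ K + C * Real.log (Real.log n) := by
    rw [hsplit, h2]
    have h5 : -Real.log (Real.log 2) ≤ |Real.log (Real.log 2)| := neg_le_abs _
    have h6 : C * (1 / Real.log (2 : ℕ) + (Real.log (Real.log n) - Real.log (Real.log (2 : ℕ)))) ≤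
        C * (1 / Real.log 2 + |Real.log (Real.log 2)|) + C * Real.log (Real.log n) := by
      push_cast
      rw [← mul_add]
      refine mul_le_mul_of_nonneg_left ?_ hC.le
      linarith
    rw [hK]
    linarith
  refine h4.trans ?_
  have h5 : K ≤ K / Real.log (Real.log 3) * Real.log (Real.log n) := by
    calc K = K / Real.log (Real.log 3) * Real.log (Real.log 3) := by field_simp
      _ ≤ _ := mul_le_mul_of_nonneg_left hlln (by positivity)
  rw [add_mul]
  linarith

end Pool.Agent.Results.MP_8775f9_nt.UpperBound
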